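import Pool.Agent.Q248.BV.Moment

/-!
# Estimates for sums of Stirling numbers
-/

set_option autoImplicit false

namespace Pool.Agent.Q248.BV

open Finset

/-- `∑ S(k,i) S(j,l) (n)_{i+l} φ(i,l)` -/
def G {R : Type*} [CommSemiring R] (n k j : ℕ) (φ : ℕ → ℕ → R) : R :=
  ∑ i ∈ range (k + 1), ∑ l ∈ range (j + 1), (Nat.stirlingSecond k i : R) *
    (Nat.stirlingSecond j l : R) * ((n.descFactorial (i + l) : R) * φ i l)

theorem G_symm {R : Type*} [CommSemiring R] (n k j : ℕ) (φ : ℕ → ℕ → R) :
    G n k j φ = G n j k (fun l i => φ i l) := by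
  unfold G
  rw [Finset.sum_comm]
  refine Finset.sum_congr rfl (fun l _ => Finset.sum_congr rfl (fun i _ => ?_))
  rw [add_comm i l]
  ring

theorem G_rec {R : Type*} [CommSemiring R] (n k j : ℕ) (φ : ℕ → ℕ → R) :
    G n (k + 1) j φ = ∑ i ∈ range (k + 1), ∑ l ∈ range (j + 1), (Nat.stirlingSecond k i : R) *
      (Nat.stirlingSecond j l : R) * (i * ((n.descFactorial (i + l) : R) * φ i l) +
        (n.descFactorial (i + 1 + l) : R) * φ (i + 1) l) := by
  unfold G
  have h := stir_rec (R := R) k (fun i => ∑ l ∈ range (j + 1),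
    (Nat.stirlingSecond j l : R) * ((n.descFactorial (i + l) : R) * φ i l))
  simp only [Finset.mul_sum] at h
  have h1 : ∑ i ∈ range (k + 1 + 1), ∑ l ∈ range (j + 1), (Nat.stirlingSecond (k + 1) i : R) *
      (Nat.stirlingSecond j l : R) * ((n.descFactorial (i + l) : R) * φ i l) =
      ∑ i ∈ range (k + 2), ∑ l ∈ range (j + 1), (Nat.stirlingSecond (k + 1) i : R) *
      ((Nat.stirlingSecond j l : R) * ((n.descFactorial (i + l) : R) * φ i l)) := by
    refine Finset.sum_congr rfl (fun i _ => Finset.sum_congr rfl (fun l _ => ?_))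
    ring
  rw [h1, h]
  refine Finset.sum_congr rfl (fun i _ => ?_)
  rw [mul_add, Finset.mul_sum, Finset.mul_sum, ← Finset.sum_add_distrib]
  refine Finset.sum_congr rfl (fun l _ => ?_)
  ring

theorem ind2 (P : ℕ → ℕ → Prop) (h0 : P 0 0) (hs : ∀ k j, P k j → P (k + 1) j)
    (hsym : ∀ k j, P k j → P j k) : ∀ k j, P k j := by
  have h1 : ∀ k, P k 0 := by
    intro k
    induction k with
    | zero => exact h0
    | succ k ih => exact hs k 0 ih
  intro k
  induction k with
  | zero => intro j; exact hsym j 0 (h1 j)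
  | succ k ih => intro j; exact hs k j (ih j)

theorem desc_le (n s i : ℕ) (h : i ≤ s) :
    i * n.descFactorial s + n.descFactorial (s + 1) ≤ n * n.descFactorial s := by
  rw [Nat.descFactorial_succ]
  rcases Nat.lt_or_ge n s with h1 | h1
  · rw [Nat.descFactorial_eq_zero_iff_lt.2 h1]
    simp
  · rw [← add_mul]
    exact Nat.mul_le_mul_right _ (by omega)

theorem G_step (n k j : ℕ) (φ ψ χ : ℕ → ℕ → ℕ)
    (h : ∀ i l, i ≤ k → l ≤ j → i * (n.descFactorial (i + l) * φ i l) +
      n.descFactorial (i + 1 + l) * φ (i + 1) l ≤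
      n * (n.descFactorial (i + l) * ψ i l) + k * (n.descFactorial (i + l) * χ i l)) :
    G n (k + 1) j φ ≤ n * G n k j ψ + k * G n k j χ := by
  rw [G_rec]
  unfold G
  rw [Finset.mul_sum, Finset.mul_sum, ← Finset.sum_add_distrib]
  refine Finset.sum_le_sum (fun i hi => ?_)
  rw [Finset.mul_sum, Finset.mul_sum, ← Finset.sum_add_distrib]
  refine Finset.sum_le_sum (fun l hl => ?_)
  simp only [Nat.cast_id]
  have := h i l (by simpa [Nat.lt_succ_iff] using hi) (by simpa [Nat.lt_succ_iff] using hl)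
  calc _ ≤ Nat.stirlingSecond k i * Nat.stirlingSecond j l *
        (n * (n.descFactorial (i + l) * ψ i l) + k * (n.descFactorial (i + l) * χ i l)) :=
        Nat.mul_le_mul_left _ this
    _ = _ := by ring

/-- total sum -/
def T0 (n k j : ℕ) : ℕ := G n k j (fun _ _ => 1)

/-- sum of the terms of degree less than `k + j` -/
def T1 (n k j : ℕ) : ℕ := G n k j (fun i l => if i + l < k + j then 1 else 0)

/-- sum of the terms of degree less than `k + j - 1` -/
def T2 (n k j : ℕ) : ℕ := G n k j (fun i l => if i + l + 1 < k + j then 1 else 0)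

theorem T0_le (n k j : ℕ) : T0 n k j ≤ n ^ (k + j) := by
  refine ind2 (fun k j => T0 n k j ≤ n ^ (k + j)) ?_ ?_ ?_ k j
  · simp [T0, G]
  · intro k j ih
    have h := G_step n k j (fun _ _ => 1) (fun _ _ => 1) (fun _ _ => 0) (by
      intro i l _ _
      have := desc_le n (i + l) i (by omega)
      rw [add_right_comm i 1 l]
      simpa using this)
    have h2 : T0 n (k + 1) j ≤ n * T0 n k j := by
      refine h.trans_eq ?_
      have : G n k j (fun _ _ => 0) = 0 := by simp [G]
      rw [this]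
      simp [T0]
    calc _ ≤ n * T0 n k j := h2
      _ ≤ n * n ^ (k + j) := Nat.mul_le_mul_left _ ih
      _ = _ := by ring
  · intro k j ih
    unfold T0 at ih ⊢
    rw [G_symm, add_comm j k]
    exact ih

theorem T1_le (n k j : ℕ) : n * T1 n k j ≤ (k + j) ^ 2 * n ^ (k + j) := by
  refine ind2 (fun k j => n * T1 n k j ≤ (k + j) ^ 2 * n ^ (k + j)) ?_ ?_ ?_ k j
  · simp [T1, G]
  · intro k j ih
    have h : T1 n (k + 1) j ≤ n * T1 n k j + k * T0 n k j := by
      refine G_step n k j _ _ _ ?_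
      intro i l hi hl
      have h1 := desc_le n (i + l) i (by omega)
      rw [add_right_comm i 1 l]
      have e1 : (i + l < k + 1 + j) := by omega
      have e2 : (i + l + 1 < k + 1 + j ↔ i + l < k + j) := by omega
      simp only [e1, if_true, e2]
      have h3 : i * n.descFactorial (i + l) ≤ k * n.descFactorial (i + l) :=
        Nat.mul_le_mul_right _ hi
      split_ifs
      · simp only [mul_one]
        omega
      · simp only [mul_one, mul_zero]
        omega
    have h0 := T0_le n k j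
    calc n * T1 n (k + 1) j ≤ n * (n * T1 n k j + k * T0 n k j) := Nat.mul_le_mul_left _ h
      _ = n * (n * T1 n k j) + n * k * T0 n k j := by ring
      _ ≤ n * ((k + j) ^ 2 * n ^ (k + j)) + n * k * n ^ (k + j) :=
          Nat.add_le_add (Nat.mul_le_mul_left _ ih) (Nat.mul_le_mul_left _ h0)
      _ = ((k + j) ^ 2 + k) * n ^ (k + j + 1) := by ring
      _ ≤ (k + 1 + j) ^ 2 * n ^ (k + j + 1) := by
          apply Nat.mul_le_mul_right
          have : (k + 1 + j) ^ 2 = (k + j) ^ 2 + (2 * (k + j) + 1) := by ring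
          omega
      _ = _ := by ring_nf
  · intro k j ih
    have : T1 n j k = T1 n k j := by
      unfold T1
      rw [G_symm]
      congr 1
      funext l i
      rw [add_comm l i, add_comm k j]
    rw [this, add_comm j k]
    exact ih

theorem T2_le (n k j : ℕ) : n ^ 2 * T2 n k j ≤ (k + j) ^ 4 * n ^ (k + j) := by
  refine ind2 (fun k j => n ^ 2 * T2 n k j ≤ (k + j) ^ 4 * n ^ (k + j)) ?_ ?_ ?_ k j
  · simp [T2, G]
  · intro k j ih
    have h : T2 n (k + 1) j ≤ n * T2 n k j + k * T1 n k j := by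
      refine G_step n k j _ _ _ ?_
      intro i l hi hl
      have h1 := desc_le n (i + l) i (by omega)
      rw [add_right_comm i 1 l]
      have e1 : (i + l + 1 < k + 1 + j ↔ i + l < k + j) := by omega
      have e2 : (i + l + 1 + 1 < k + 1 + j ↔ i + l + 1 < k + j) := by omega
      simp only [e1, e2]
      have h3 : i * n.descFactorial (i + l) ≤ k * n.descFactorial (i + l) :=
        Nat.mul_le_mul_right _ hi
      by_cases c1 : i + l + 1 < k + j
      · have c2 : i + l < k + j := by omega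
        simp only [c1, c2, if_true, mul_one]
        omega
      · by_cases c2 : i + l < k + j
        · simp only [c1, c2, if_true, if_false, mul_one, mul_zero]
          omega
        · simp only [c1, c2, if_false, mul_zero]
          omega
    have h0 := T1_le n k j
    calc n ^ 2 * T2 n (k + 1) j ≤ n ^ 2 * (n * T2 n k j + k * T1 n k j) :=
          Nat.mul_le_mul_left _ h
      _ = n * (n ^ 2 * T2 n k j) + n * k * (n * T1 n k j) := by ring
      _ ≤ n * ((k + j) ^ 4 * n ^ (k + j)) + n * k * ((k + j) ^ 2 * n ^ (k + j)) :=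
          Nat.add_le_add (Nat.mul_le_mul_left _ ih) (Nat.mul_le_mul_left _ h0)
      _ = ((k + j) ^ 4 + k * (k + j) ^ 2) * n ^ (k + j + 1) := by ring
      _ ≤ (k + 1 + j) ^ 4 * n ^ (k + j + 1) := by
          apply Nat.mul_le_mul_right
          have : k ≤ k + j := Nat.le_add_right _ _
          generalize hK : k + j = K at this ⊢
          have h5 : k + 1 + j = K + 1 := by omega
          rw [h5]
          have h6 : k * K ^ 2 ≤ K * K ^ 2 := Nat.mul_le_mul_right _ this
          have h7 : K ^ 4 + K * K ^ 2 ≤ (K + 1) ^ 4 := by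
            have : (K + 1) ^ 4 = K ^ 4 + K * K ^ 2 + (3 * K ^ 3 + 6 * K ^ 2 + 4 * K + 1) := by ring
            omega
          omega
      _ = _ := by ring_nf
  · intro k j ih
    have : T2 n j k = T2 n k j := by
      unfold T2
      rw [G_symm]
      congr 1
      funext l i
      rw [add_comm l i, add_comm k j]
    rw [this, add_comm j k]
    exact ih

section

variable (n : ℕ)

theorem desc_succ_real (K : ℕ) : (n.descFactorial (K + 1) : ℝ) =
    ((n : ℝ) - K) * (n.descFactorial K : ℝ) := by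
  rw [Nat.descFactorial_succ]
  rcases Nat.lt_or_ge n K with h1 | h1
  · rw [Nat.descFactorial_eq_zero_iff_lt.2 h1]
    simp
  · push_cast [Nat.cast_sub h1]
    ring

theorem desc_le_pow (K : ℕ) : (n.descFactorial K : ℝ) ≤ (n : ℝ) ^ K := by
  exact_mod_cast Nat.descFactorial_le_pow n K

theorem desc_lower (K : ℕ) : (n : ℝ) ^ K * ((n : ℝ) - K * (K - 1) / 2) ≤
    n * (n.descFactorial K : ℝ) := by
  induction K with
  | zero => simp
  | succ K ih =>
    rw [desc_succ_real]
    have h1 := desc_le_pow n K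
    have hn : (0 : ℝ) ≤ n := Nat.cast_nonneg n
    have hK : (0 : ℝ) ≤ K := Nat.cast_nonneg K
    have h2 : (n : ℝ) * ((n : ℝ) ^ K * ((n : ℝ) - K * (K - 1) / 2)) ≤
        n * (n * (n.descFactorial K : ℝ)) := mul_le_mul_of_nonneg_left ih hn
    have h3 : (K : ℝ) * n * (n.descFactorial K : ℝ) ≤ K * n * (n : ℝ) ^ K :=
      mul_le_mul_of_nonneg_left h1 (mul_nonneg hK hn)
    push_cast
    rw [pow_succ]
    nlinarith

theorem desc_upper (K : ℕ) : (n : ℝ) ^ 2 * (n.descFactorial K : ℝ) ≤
    (n : ℝ) ^ K * ((n : ℝ) ^ 2 - n * (K * (K - 1) / 2) + (K : ℝ) ^ 4) := by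
  induction K with
  | zero => simp
  | succ K ih =>
    rw [desc_succ_real]
    have h1 := desc_lower n K
    have hn : (0 : ℝ) ≤ n := Nat.cast_nonneg n
    have hK : (0 : ℝ) ≤ K := Nat.cast_nonneg K
    have h2 := mul_le_mul_of_nonneg_left ih hn
    have h3 := mul_le_mul_of_nonneg_left h1 (mul_nonneg hK hn)
    have hp : (0 : ℝ) ≤ (n : ℝ) ^ (K + 1) := pow_nonneg hn _
    have h4 : (0 : ℝ) ≤ (n : ℝ) ^ (K + 1) * (((K : ℝ) + 1) ^ 4 - (K : ℝ) ^ 4 -
        (K : ℝ) * (K * (K - 1) / 2)) := by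
      apply mul_nonneg hp
      have : ((K : ℝ) + 1) ^ 4 - (K : ℝ) ^ 4 - (K : ℝ) * (K * (K - 1) / 2) =
        (7 / 2) * (K : ℝ) ^ 3 + (13 / 2) * K ^ 2 + 4 * K + 1 := by ring
      rw [this]
      positivity
    push_cast
    have e1 : (n : ℝ) ^ 2 * (((n : ℝ) - K) * (n.descFactorial K : ℝ)) =
        n * ((n : ℝ) ^ 2 * (n.descFactorial K : ℝ)) - K * n * (n * (n.descFactorial K : ℝ)) := by
      ring
    rw [e1]
    have e2 : (n : ℝ) ^ (K + 1) * ((n : ℝ) ^ 2 - n * (((K : ℝ) + 1) * (K + 1 - 1) / 2) +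
        ((K : ℝ) + 1) ^ 4) = n * ((n : ℝ) ^ K * ((n : ℝ) ^ 2 - n * (K * (K - 1) / 2) +
          (K : ℝ) ^ 4)) - K * n * ((n : ℝ) ^ K * ((n : ℝ) - K * (K - 1) / 2)) +
          (n : ℝ) ^ (K + 1) * (((K : ℝ) + 1) ^ 4 - (K : ℝ) ^ 4 -
        (K : ℝ) * (K * (K - 1) / 2)) := by
      rw [pow_succ]
      ring
    rw [e2]
    linarith

end

end Pool.Agent.Q248.BV
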