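import Mathlib

/-!
# Moments of the trinomial distribution with complex weights
-/

set_option autoImplicit false

namespace Pool.Agent.Q248.BV

open Finset

/-- recursion of the Stirling numbers of the second kind, summed against a function -/
theorem stir_rec {R : Type*} [CommSemiring R] (k : ℕ) (φ : ℕ → R) :
    ∑ i ∈ range (k + 2), (Nat.stirlingSecond (k + 1) i : R) * φ i =
      ∑ i ∈ range (k + 1), (Nat.stirlingSecond k i : R) * (i * φ i + φ (i + 1)) := by
  rw [Finset.sum_range_succ' _ (k + 1)]
  have h0 : (Nat.stirlingSecond (k + 1) 0 : R) * φ 0 = 0 := by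
    rw [Nat.stirlingSecond_succ_zero]
    simp
  rw [h0, add_zero]
  have h1 : ∀ i ∈ range (k + 1), (Nat.stirlingSecond (k + 1) (i + 1) : R) * φ (i + 1) =
      ((i + 1 : ℕ) : R) * (Nat.stirlingSecond k (i + 1) : R) * φ (i + 1) +
        (Nat.stirlingSecond k i : R) * φ (i + 1) := by
    intro i _
    rw [Nat.stirlingSecond_succ_succ]
    push_cast
    ring
  rw [Finset.sum_congr rfl h1, Finset.sum_add_distrib]
  have h2 : ∑ i ∈ range (k + 1), ((i + 1 : ℕ) : R) * (Nat.stirlingSecond k (i + 1) : R) * φ (i + 1) =
      ∑ i ∈ range (k + 1), (i : R) * (Nat.stirlingSecond k i : R) * φ i := by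
    have h3 := Finset.sum_range_succ' (fun i => (i : R) * (Nat.stirlingSecond k i : R) * φ i) (k + 1)
    have h4 := Finset.sum_range_succ (fun i => (i : R) * (Nat.stirlingSecond k i : R) * φ i) (k + 1)
    rw [h3] at h4
    have h5 : Nat.stirlingSecond k (k + 1) = 0 := Nat.stirlingSecond_eq_zero_of_lt (Nat.lt_succ_self k)
    simp only [h5, Nat.cast_zero, mul_zero, zero_mul, add_zero] at h4
    exact h4
  rw [h2, ← Finset.sum_add_distrib]
  refine Finset.sum_congr rfl (fun i _ => ?_)
  ring

theorem pow_desc (a k : ℕ) : (a : ℂ) ^ k =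
    ∑ i ∈ range (k + 1), (Nat.stirlingSecond k i : ℂ) * (a.descFactorial i : ℂ) := by
  induction k with
  | zero => simp
  | succ k ih =>
    rw [stir_rec k (fun i => (a.descFactorial i : ℂ)), pow_succ, ih, Finset.sum_mul]
    refine Finset.sum_congr rfl (fun i _ => ?_)
    have h : ((i * a.descFactorial i + a.descFactorial (i + 1) : ℕ) : ℂ) =
        ((a.descFactorial i * a : ℕ) : ℂ) := by
      congr 1
      rw [Nat.descFactorial_succ]
      rcases Nat.lt_or_ge a i with h | h
      · rw [Nat.descFactorial_eq_zero_iff_lt.2 h]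
        simp
      · rw [← add_mul, Nat.add_sub_cancel' h, mul_comm]
    push_cast at h
    rw [h]
    ring

theorem uni (y z : ℂ) : ∀ l N : ℕ,
    ∑ b ∈ range (N + 1), (N.choose b : ℂ) * (b.descFactorial l : ℂ) * (y ^ b * z ^ (N - b)) =
      (N.descFactorial l : ℂ) * (y ^ l * (y + z) ^ (N - l)) := by
  intro l
  induction l with
  | zero =>
    intro N
    simp only [Nat.descFactorial_zero, Nat.cast_one, mul_one, pow_zero, one_mul, Nat.sub_zero]
    rw [add_pow]
    refine Finset.sum_congr rfl (fun b _ => ?_)
    ring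
  | succ l ih =>
    intro N
    cases N with
    | zero => simp
    | succ N =>
      rw [Finset.sum_range_succ' _ (N + 1)]
      have h0 : ((N + 1).choose 0 : ℂ) * (Nat.descFactorial 0 (l + 1) : ℂ) *
          (y ^ 0 * z ^ (N + 1 - 0)) = 0 := by simp
      rw [h0, add_zero]
      have h1 : ∀ b ∈ range (N + 1), ((N + 1).choose (b + 1) : ℂ) *
          ((b + 1).descFactorial (l + 1) : ℂ) * (y ^ (b + 1) * z ^ (N + 1 - (b + 1))) =
          ((N + 1 : ℕ) : ℂ) * y * ((N.choose b : ℂ) * (b.descFactorial l : ℂ) *
            (y ^ b * z ^ (N - b))) := by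
        intro b _
        rw [Nat.add_sub_add_right, Nat.succ_descFactorial_succ]
        have h := Nat.add_one_mul_choose_eq N b
        have h' : ((N + 1 : ℕ) : ℂ) * (N.choose b : ℂ) =
            ((N + 1).choose (b + 1) : ℂ) * ((b + 1 : ℕ) : ℂ) := by
          exact_mod_cast h
        push_cast at h' ⊢
        linear_combination (-(y ^ (b + 1) * z ^ (N - b) * (b.descFactorial l : ℂ))) * h'
      rw [Finset.sum_congr rfl h1, ← Finset.mul_sum, ih N, Nat.succ_descFactorial_succ,
        Nat.add_sub_add_right]
      push_cast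
      ring

theorem choose_desc : ∀ l n a : ℕ,
    n.choose a * (n - a).descFactorial l = n.descFactorial l * (n - l).choose a := by
  intro l
  induction l with
  | zero => intro n a; simp
  | succ l ih =>
    intro n a
    cases n with
    | zero => simp
    | succ n =>
      rw [Nat.succ_descFactorial_succ, Nat.add_sub_add_right, mul_assoc, ← ih n a]
      rcases Nat.lt_or_ge n a with h | h
      · rw [Nat.choose_eq_zero_of_lt h, Nat.sub_eq_zero_of_le (by omega : n + 1 ≤ a)]
        simp
      · rw [Nat.sub_add_comm h, Nat.succ_descFactorial_succ]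
        have h2 := Nat.choose_mul_succ_eq n a
        rw [Nat.sub_add_comm h] at h2
        calc (n + 1).choose a * ((n - a + 1) * (n - a).descFactorial l)
            = ((n + 1).choose a * (n - a + 1)) * (n - a).descFactorial l := by ring
          _ = (n.choose a * (n + 1)) * (n - a).descFactorial l := by rw [h2]
          _ = _ := by ring

theorem tri (x y z : ℂ) (n i l : ℕ) :
    ∑ a ∈ range (n + 1), ∑ b ∈ range (n - a + 1), (n.choose a : ℂ) * ((n - a).choose b : ℂ) *
      ((a.descFactorial i : ℂ) * (b.descFactorial l : ℂ)) * (x ^ a * y ^ b * z ^ (n - a - b)) =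
      (n.descFactorial (i + l) : ℂ) * (x ^ i * y ^ l * (x + y + z) ^ (n - l - i)) := by
  have h1 : ∀ a ∈ range (n + 1), ∑ b ∈ range (n - a + 1), (n.choose a : ℂ) *
      ((n - a).choose b : ℂ) * ((a.descFactorial i : ℂ) * (b.descFactorial l : ℂ)) *
      (x ^ a * y ^ b * z ^ (n - a - b)) =
      (n.descFactorial l : ℂ) * y ^ l * (((n - l).choose a : ℂ) * (a.descFactorial i : ℂ) *
        (x ^ a * (y + z) ^ (n - l - a))) := by
    intro a _
    have h2 : ∀ b ∈ range (n - a + 1), (n.choose a : ℂ) *
      ((n - a).choose b : ℂ) * ((a.descFactorial i : ℂ) * (b.descFactorial l : ℂ)) *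
      (x ^ a * y ^ b * z ^ (n - a - b)) = (n.choose a : ℂ) * (a.descFactorial i : ℂ) * x ^ a *
        (((n - a).choose b : ℂ) * (b.descFactorial l : ℂ) * (y ^ b * z ^ (n - a - b))) := by
      intro b _
      ring
    rw [Finset.sum_congr rfl h2, ← Finset.mul_sum, uni y z l (n - a)]
    have h3 : (n.choose a : ℂ) * ((n - a).descFactorial l : ℂ) =
        (n.descFactorial l : ℂ) * ((n - l).choose a : ℂ) := by
      exact_mod_cast choose_desc l n a
    have h4 : n - a - l = n - l - a := by omega
    rw [h4]
    linear_combination ((a.descFactorial i : ℂ) * x ^ a * (y ^ l * (y + z) ^ (n - l - a))) * h3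
  rw [Finset.sum_congr rfl h1, ← Finset.mul_sum]
  rcases Nat.lt_or_ge n l with h | h
  · rw [Nat.descFactorial_eq_zero_iff_lt.2 h, Nat.descFactorial_eq_zero_iff_lt.2 (by omega : n < i + l)]
    simp
  · have h5 : ∑ a ∈ range (n + 1), ((n - l).choose a : ℂ) * (a.descFactorial i : ℂ) *
        (x ^ a * (y + z) ^ (n - l - a)) = ∑ a ∈ range (n - l + 1), ((n - l).choose a : ℂ) *
        (a.descFactorial i : ℂ) * (x ^ a * (y + z) ^ (n - l - a)) := by
      symm
      apply Finset.sum_subset
      · intro a ha
        rw [Finset.mem_range] at ha ⊢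
        omega
      · intro a _ ha
        rw [Finset.mem_range] at ha
        rw [Nat.choose_eq_zero_of_lt (by omega : n - l < a)]
        simp
    rw [h5, uni x (y + z) i (n - l)]
    have h6 : (n.descFactorial (i + l) : ℂ) =
        (n.descFactorial l : ℂ) * ((n - l).descFactorial i : ℂ) := by
      have h7 : n.descFactorial (l + i) = (n - l).descFactorial i * n.descFactorial l := by
        have := Nat.descFactorial_mul_descFactorial (n := n) (k := l) (m := l + i) (by omega)
        rw [← this]
        congr 2
        omega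
      rw [add_comm i l, h7]
      push_cast
      ring
    rw [h6, ← add_assoc]
    ring

end Pool.Agent.Q248.BV
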