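import Pool.Agent.Q248.BV.Bound

/-!
# The Voronovskaja estimate for monomials
-/

set_option autoImplicit false

namespace Pool.Agent.Q248.BV

open Finset

/-- the Bernstein sum of a monomial -/
noncomputable def Bm (n k j : ℕ) (x y : ℂ) : ℂ :=
  ∑ a ∈ range (n + 1), ∑ b ∈ range (n - a + 1), (n.choose a : ℂ) * ((n - a).choose b : ℂ) *
    (x ^ a * y ^ b * (1 - x - y) ^ (n - a - b)) * (((a : ℂ) / n) ^ k * ((b : ℂ) / n) ^ j)

theorem Bm_eq (n k j : ℕ) (hn : 1 ≤ n) (x y : ℂ) :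
    (n : ℂ) ^ (k + j) * Bm n k j x y = G n k j (fun i l => x ^ i * y ^ l) := by
  have hn0 : (n : ℂ) ≠ 0 := by exact_mod_cast (by omega : n ≠ 0)
  unfold Bm
  have h1 : (n : ℂ) ^ (k + j) * ∑ a ∈ range (n + 1), ∑ b ∈ range (n - a + 1),
      (n.choose a : ℂ) * ((n - a).choose b : ℂ) * (x ^ a * y ^ b * (1 - x - y) ^ (n - a - b)) *
        (((a : ℂ) / n) ^ k * ((b : ℂ) / n) ^ j) =
      ∑ a ∈ range (n + 1), ∑ b ∈ range (n - a + 1), ∑ i ∈ range (k + 1), ∑ l ∈ range (j + 1),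
        (Nat.stirlingSecond k i : ℂ) * (Nat.stirlingSecond j l : ℂ) *
        ((n.choose a : ℂ) * ((n - a).choose b : ℂ) *
      ((a.descFactorial i : ℂ) * (b.descFactorial l : ℂ)) *
        (x ^ a * y ^ b * (1 - x - y) ^ (n - a - b))) := by
    rw [Finset.mul_sum]
    refine Finset.sum_congr rfl (fun a _ => ?_)
    rw [Finset.mul_sum]
    refine Finset.sum_congr rfl (fun b _ => ?_)
    have e1 : (n : ℂ) ^ (k + j) * (((a : ℂ) / n) ^ k * ((b : ℂ) / n) ^ j) = (a : ℂ) ^ k *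
        (b : ℂ) ^ j := by
      rw [pow_add, div_pow, div_pow]
      field_simp
    have e2 : (n : ℂ) ^ (k + j) * ((n.choose a : ℂ) * ((n - a).choose b : ℂ) *
        (x ^ a * y ^ b * (1 - x - y) ^ (n - a - b)) * (((a : ℂ) / n) ^ k * ((b : ℂ) / n) ^ j)) =
        (n.choose a : ℂ) * ((n - a).choose b : ℂ) * (x ^ a * y ^ b * (1 - x - y) ^ (n - a - b)) *
        ((a : ℂ) ^ k * (b : ℂ) ^ j) := by
      rw [← e1]
      ring
    rw [e2, pow_desc a k, pow_desc b j, Finset.sum_mul_sum, Finset.mul_sum]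
    refine Finset.sum_congr rfl (fun i _ => ?_)
    rw [Finset.mul_sum]
    refine Finset.sum_congr rfl (fun l _ => ?_)
    ring
  rw [h1]
  have h2 : ∀ a ∈ range (n + 1), ∑ b ∈ range (n - a + 1), ∑ i ∈ range (k + 1),
      ∑ l ∈ range (j + 1), (Nat.stirlingSecond k i : ℂ) * (Nat.stirlingSecond j l : ℂ) *
        ((n.choose a : ℂ) * ((n - a).choose b : ℂ) *
      ((a.descFactorial i : ℂ) * (b.descFactorial l : ℂ)) *
        (x ^ a * y ^ b * (1 - x - y) ^ (n - a - b))) = ∑ i ∈ range (k + 1), ∑ l ∈ range (j + 1),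
      ∑ b ∈ range (n - a + 1), (Nat.stirlingSecond k i : ℂ) * (Nat.stirlingSecond j l : ℂ) *
        ((n.choose a : ℂ) * ((n - a).choose b : ℂ) *
      ((a.descFactorial i : ℂ) * (b.descFactorial l : ℂ)) *
        (x ^ a * y ^ b * (1 - x - y) ^ (n - a - b))) := by
    intro a _
    rw [Finset.sum_comm]
    refine Finset.sum_congr rfl (fun i _ => ?_)
    rw [Finset.sum_comm]
  rw [Finset.sum_congr rfl h2, Finset.sum_comm]
  unfold G
  refine Finset.sum_congr rfl (fun i _ => ?_)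
  rw [Finset.sum_comm]
  refine Finset.sum_congr rfl (fun l _ => ?_)
  have h3 := tri x y (1 - x - y) n i l
  have h4 : x + y + (1 - x - y) = 1 := by ring
  rw [h4, one_pow, mul_one] at h3
  rw [← h3]
  simp only [Finset.mul_sum]

theorem split_sum (k j : ℕ) (g : ℕ → ℕ → ℂ) :
    ∑ i ∈ range (k + 1), ∑ l ∈ range (j + 1), g i l =
      (∑ i ∈ range (k + 1), ∑ l ∈ range (j + 1), if i + l + 1 < k + j then g i l else 0) +
        g k j + (if 1 ≤ k then g (k - 1) j else 0) + (if 1 ≤ j then g k (j - 1) else 0) := by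
  have h : ∀ i ∈ range (k + 1), ∀ l ∈ range (j + 1), g i l =
      (if i + l + 1 < k + j then g i l else 0) + (if i = k then (if l = j then g k j else 0) else 0) +
      (if i + 1 = k then (if l = j then g (k - 1) j else 0) else 0) +
      (if i = k then (if l + 1 = j then g k (j - 1) else 0) else 0) := by
    intro i hi l hl
    rw [Finset.mem_range] at hi hl
    by_cases c1 : i = k
    · subst c1
      by_cases c2 : l = j
      · subst c2
        simp
      · by_cases c3 : l + 1 = j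
        · subst c3
          have c4 : ¬ (i + l + 1 < i + (l + 1)) := by omega
          simp [c4]
        · have c4 : i + l + 1 < i + j := by omega
          simp [c2, c3, c4]
    · by_cases c2 : i + 1 = k
      · subst c2
        by_cases c3 : l = j
        · subst c3
          have c4 : ¬ (i + l + 1 < i + 1 + l) := by omega
          simp [c4]
        · have c4 : i + l + 1 < i + 1 + j := by omega
          simp [c3, c4]
      · have c4 : i + l + 1 < k + j := by omega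
        simp [c1, c2, c4]
  rw [Finset.sum_congr rfl (fun i hi => Finset.sum_congr rfl (fun l hl => h i hi l hl))]
  simp only [Finset.sum_add_distrib]
  have e1 : ∑ i ∈ range (k + 1), ∑ l ∈ range (j + 1),
      (if i = k then (if l = j then g k j else 0) else 0) = g k j := by
    rw [Finset.sum_eq_single k, Finset.sum_eq_single j]
    · simp
    · intro b _ hb
      simp [hb]
    · intro hb
      simp at hb
    · intro b _ hb
      simp [hb]
    · intro hb
      simp at hb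
  have e2 : ∑ i ∈ range (k + 1), ∑ l ∈ range (j + 1),
      (if i + 1 = k then (if l = j then g (k - 1) j else 0) else 0) =
      if 1 ≤ k then g (k - 1) j else 0 := by
    cases k with
    | zero => simp
    | succ k =>
      rw [Finset.sum_eq_single k, Finset.sum_eq_single j]
      · simp
      · intro b _ hb
        simp [hb]
      · intro hb
        simp at hb
      · intro b _ hb
        simp [hb]
      · intro hb
        simp at hb
  have e3 : ∑ i ∈ range (k + 1), ∑ l ∈ range (j + 1),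
      (if i = k then (if l + 1 = j then g k (j - 1) else 0) else 0) =
      if 1 ≤ j then g k (j - 1) else 0 := by
    cases j with
    | zero => simp
    | succ j =>
      rw [Finset.sum_eq_single k, Finset.sum_eq_single j]
      · simp
      · intro b _ hb
        simp [hb]
      · intro hb
        simp at hb
      · intro b _ hb
        simp [hb]
      · intro hb
        simp at hb
  rw [e1, e2, e3]

/-- the right hand side for a monomial -/
noncomputable def Vm (n k j : ℕ) (x y : ℂ) : ℂ :=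
  x ^ k * y ^ j + 1 / (2 * n) * (x * (1 - x) * ((k : ℂ) * (k - 1) * (x ^ (k - 2) * y ^ j)) -
    2 * x * y * ((k : ℂ) * j * (x ^ (k - 1) * y ^ (j - 1))) +
    y * (1 - y) * ((j : ℂ) * (j - 1) * (x ^ k * y ^ (j - 2))))

theorem pw2 (k : ℕ) (x : ℂ) : x * (1 - x) * ((k : ℂ) * (k - 1) * x ^ (k - 2)) =
    (k : ℂ) * (k - 1) * (x ^ (k - 1) - x ^ k) := by
  rcases k with _ | _ | k
  · simp
  · simp
  · have e1 : k + 1 + 1 - 2 = k := by omega
    have e2 : k + 1 + 1 - 1 = k + 1 := by omega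
    rw [e1, e2]
    ring

theorem pw1 (k : ℕ) (x : ℂ) : x * ((k : ℂ) * x ^ (k - 1)) = (k : ℂ) * x ^ k := by
  rcases k with _ | k
  · simp
  · rw [Nat.add_sub_cancel]
    ring

theorem Vm_eq (n k j : ℕ) (x y : ℂ) : Vm n k j x y =
    (1 - ((k + j : ℕ) : ℂ) * ((k + j : ℕ) - 1) / (2 * n)) * (x ^ k * y ^ j) +
      (k.choose 2 : ℂ) / n * (x ^ (k - 1) * y ^ j) + (j.choose 2 : ℂ) / n * (x ^ k * y ^ (j - 1)) := by
  unfold Vm
  have h1 : x * (1 - x) * ((k : ℂ) * (k - 1) * (x ^ (k - 2) * y ^ j)) =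
      (k : ℂ) * (k - 1) * (x ^ (k - 1) - x ^ k) * y ^ j := by
    rw [← pw2]
    ring
  have h2 : 2 * x * y * ((k : ℂ) * j * (x ^ (k - 1) * y ^ (j - 1))) =
      2 * (k : ℂ) * j * (x ^ k * y ^ j) := by
    have a := pw1 k x
    have b := pw1 j y
    calc _ = 2 * (x * ((k : ℂ) * x ^ (k - 1))) * (y * ((j : ℂ) * y ^ (j - 1))) := by ring
      _ = _ := by rw [a, b]; ring
  have h3 : y * (1 - y) * ((j : ℂ) * (j - 1) * (x ^ k * y ^ (j - 2))) =
      (j : ℂ) * (j - 1) * (y ^ (j - 1) - y ^ j) * x ^ k := by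
    rw [← pw2]
    ring
  rw [h1, h2, h3, Nat.cast_choose_two, Nat.cast_choose_two]
  push_cast
  ring

theorem low (n m : ℕ) : (n : ℝ) ^ 2 * ((n : ℝ) ^ m - n.descFactorial m) ≤
    (n : ℝ) ^ (m + 1) * ((m : ℝ) ^ 2 / 2) := by
  have h := desc_lower n m
  have hn : (0 : ℝ) ≤ n := Nat.cast_nonneg n
  have hm : (0 : ℝ) ≤ m := Nat.cast_nonneg m
  have h2 := mul_le_mul_of_nonneg_left h hn
  have h3 : (0 : ℝ) ≤ (n : ℝ) ^ (m + 1) * (m / 2) := by positivity
  have e : (n : ℝ) ^ (m + 1) = n ^ m * n := pow_succ _ _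
  rw [e] at h3 ⊢
  nlinarith

theorem G_bound (n k j : ℕ) (x y : ℂ) (r s : ℝ) (hr : 1 ≤ r) (hs : 1 ≤ s)
    (hx : ‖x‖ ≤ r) (hy : ‖y‖ ≤ s) :
    ‖∑ i ∈ range (k + 1), ∑ l ∈ range (j + 1), (if i + l + 1 < k + j then
      (Nat.stirlingSecond k i : ℂ) * (Nat.stirlingSecond j l : ℂ) *
        ((n.descFactorial (i + l) : ℂ) * (x ^ i * y ^ l)) else 0)‖ ≤
      r ^ k * s ^ j * T2 n k j := by
  have h1 : (T2 n k j : ℝ) = ∑ i ∈ range (k + 1), ∑ l ∈ range (j + 1),
      (Nat.stirlingSecond k i : ℝ) * (Nat.stirlingSecond j l : ℝ) *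
        ((n.descFactorial (i + l) : ℝ) * (if i + l + 1 < k + j then 1 else 0)) := by
    unfold T2 G
    push_cast
    rfl
  rw [h1, Finset.mul_sum]
  refine (norm_sum_le _ _).trans (Finset.sum_le_sum (fun i hi => ?_))
  rw [Finset.mul_sum]
  refine (norm_sum_le _ _).trans (Finset.sum_le_sum (fun l hl => ?_))
  rw [Finset.mem_range] at hi hl
  split_ifs with hc
  · rw [norm_mul, norm_mul, norm_mul, norm_mul, norm_pow, norm_pow, Complex.norm_natCast,
      Complex.norm_natCast, Complex.norm_natCast, mul_one]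
    have h2 : ‖x‖ ^ i ≤ r ^ k :=
      (pow_le_pow_left₀ (norm_nonneg _) hx i).trans (pow_le_pow_right₀ hr (by omega))
    have h3 : ‖y‖ ^ l ≤ s ^ j :=
      (pow_le_pow_left₀ (norm_nonneg _) hy l).trans (pow_le_pow_right₀ hs (by omega))
    have h4 : ‖x‖ ^ i * ‖y‖ ^ l ≤ r ^ k * s ^ j :=
      mul_le_mul h2 h3 (by positivity) (by positivity)
    calc (Nat.stirlingSecond k i : ℝ) * (Nat.stirlingSecond j l : ℝ) *
          ((n.descFactorial (i + l) : ℝ) * (‖x‖ ^ i * ‖y‖ ^ l))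
        ≤ (Nat.stirlingSecond k i : ℝ) * (Nat.stirlingSecond j l : ℝ) *
          ((n.descFactorial (i + l) : ℝ) * (r ^ k * s ^ j)) := by gcongr
      _ = _ := by ring
  · simp

theorem main (n k j : ℕ) (hn : 1 ≤ n) (x y : ℂ) (r s : ℝ) (hr : 1 ≤ r) (hs : 1 ≤ s)
    (hx : ‖x‖ ≤ r) (hy : ‖y‖ ≤ s) :
    ‖Bm n k j x y - Vm n k j x y‖ ≤ 3 * (((k + j : ℕ) : ℝ) ^ 4 * (r ^ k * s ^ j)) / (n : ℝ) ^ 2 := by
  have hn0 : (n : ℂ) ≠ 0 := by exact_mod_cast (by omega : n ≠ 0)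
  have hnr : (0 : ℝ) < n := by exact_mod_cast (by omega : 0 < n)
  set K := k + j with hK
  set D : ℕ → ℝ := fun m => (n.descFactorial m : ℝ) with hD
  have hxk : ‖x ^ k * y ^ j‖ ≤ r ^ k * s ^ j := by
    rw [norm_mul, norm_pow, norm_pow]
    exact mul_le_mul (pow_le_pow_left₀ (norm_nonneg _) hx k)
      (pow_le_pow_left₀ (norm_nonneg _) hy j) (by positivity) (by positivity)
  have hxk1 : ‖x ^ (k - 1) * y ^ j‖ ≤ r ^ k * s ^ j := by
    rw [norm_mul, norm_pow, norm_pow]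
    exact mul_le_mul ((pow_le_pow_left₀ (norm_nonneg _) hx _).trans
      (pow_le_pow_right₀ hr (by omega)))
      (pow_le_pow_left₀ (norm_nonneg _) hy j) (by positivity) (by positivity)
  have hxk2 : ‖x ^ k * y ^ (j - 1)‖ ≤ r ^ k * s ^ j := by
    rw [norm_mul, norm_pow, norm_pow]
    exact mul_le_mul (pow_le_pow_left₀ (norm_nonneg _) hx _)
      ((pow_le_pow_left₀ (norm_nonneg _) hy _).trans (pow_le_pow_right₀ hs (by omega)))
      (by positivity) (by positivity)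
  set F := ∑ i ∈ range (k + 1), ∑ l ∈ range (j + 1), (if i + l + 1 < k + j then
      (Nat.stirlingSecond k i : ℂ) * (Nat.stirlingSecond j l : ℂ) *
        ((n.descFactorial (i + l) : ℂ) * (x ^ i * y ^ l)) else 0) with hF
  have hFb : (n : ℝ) ^ 2 * ‖F‖ ≤ (K : ℝ) ^ 4 * (n : ℝ) ^ K * (r ^ k * s ^ j) := by
    have h1 := G_bound n k j x y r s hr hs hx hy
    have h2 : ((n ^ 2 * T2 n k j : ℕ) : ℝ) ≤ (((k + j) ^ 4 * n ^ (k + j) : ℕ) : ℝ) := by
      exact_mod_cast T2_le n k j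
    push_cast at h2
    have h3 : (0 : ℝ) ≤ r ^ k * s ^ j := by positivity
    calc (n : ℝ) ^ 2 * ‖F‖ ≤ (n : ℝ) ^ 2 * (r ^ k * s ^ j * T2 n k j) := by gcongr
      _ = (n : ℝ) ^ 2 * T2 n k j * (r ^ k * s ^ j) := by ring
      _ ≤ (((k : ℝ) + j) ^ 4 * (n : ℝ) ^ (k + j)) * (r ^ k * s ^ j) :=
          mul_le_mul_of_nonneg_right h2 h3
      _ = _ := by rw [hK]; push_cast; ring
  -- the decomposition
  have hG : G n k j (fun i l => x ^ i * y ^ l) = F + (D K : ℂ) * (x ^ k * y ^ j) +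
      (k.choose 2 : ℂ) * (D (k - 1 + j) : ℂ) * (x ^ (k - 1) * y ^ j) +
      (j.choose 2 : ℂ) * (D (k + (j - 1)) : ℂ) * (x ^ k * y ^ (j - 1)) := by
    unfold G
    rw [split_sum k j]
    have a1 : (Nat.stirlingSecond k k : ℂ) * (Nat.stirlingSecond j j : ℂ) *
        ((n.descFactorial (k + j) : ℂ) * (x ^ k * y ^ j)) = (D K : ℂ) * (x ^ k * y ^ j) := by
      rw [Nat.stirlingSecond_self, Nat.stirlingSecond_self]
      simp [hD, hK]
    have a2 : (if 1 ≤ k then (Nat.stirlingSecond k (k - 1) : ℂ) * (Nat.stirlingSecond j j : ℂ) *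
        ((n.descFactorial (k - 1 + j) : ℂ) * (x ^ (k - 1) * y ^ j)) else 0) =
        (k.choose 2 : ℂ) * (D (k - 1 + j) : ℂ) * (x ^ (k - 1) * y ^ j) := by
      rcases k with _ | k
      · simp
      · rw [if_pos (by omega), Nat.add_sub_cancel, Nat.stirlingSecond_succ_self_left,
          Nat.stirlingSecond_self]
        simp only [hD, Nat.cast_one, mul_one, Complex.ofReal_natCast]
        ring
    have a3 : (if 1 ≤ j then (Nat.stirlingSecond k k : ℂ) * (Nat.stirlingSecond j (j - 1) : ℂ) *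
        ((n.descFactorial (k + (j - 1)) : ℂ) * (x ^ k * y ^ (j - 1))) else 0) =
        (j.choose 2 : ℂ) * (D (k + (j - 1)) : ℂ) * (x ^ k * y ^ (j - 1)) := by
      rcases j with _ | j
      · simp
      · rw [if_pos (by omega), Nat.add_sub_cancel, Nat.stirlingSecond_succ_self_left,
          Nat.stirlingSecond_self]
        simp only [hD, Nat.cast_one, one_mul, Complex.ofReal_natCast]
        ring
    rw [a1, a2, a3]
  have hd : (n : ℂ) ^ K * (Bm n k j x y - Vm n k j x y) = F +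
      ((D K - (n : ℝ) ^ K * (1 - (K : ℝ) * (K - 1) / (2 * n)) : ℝ) : ℂ) * (x ^ k * y ^ j) +
      (((k.choose 2 : ℝ) * (D (k - 1 + j) - (n : ℝ) ^ K / n) : ℝ) : ℂ) * (x ^ (k - 1) * y ^ j) +
      (((j.choose 2 : ℝ) * (D (k + (j - 1)) - (n : ℝ) ^ K / n) : ℝ) : ℂ) *
        (x ^ k * y ^ (j - 1)) := by
    rw [mul_sub, hK, Bm_eq n k j hn, ← hK, hG, Vm_eq, ← hK]
    push_cast
    field_simp
    ring
  have b2 : (n : ℝ) ^ 2 * |D K - (n : ℝ) ^ K * (1 - (K : ℝ) * (K - 1) / (2 * n))| ≤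
      (K : ℝ) ^ 4 * (n : ℝ) ^ K := by
    have h1 := desc_lower n K
    have h2 := desc_upper n K
    have h3 := mul_le_mul_of_nonneg_left h1 hnr.le
    have e : (n : ℝ) ^ 2 * ((n : ℝ) ^ K * (1 - (K : ℝ) * (K - 1) / (2 * n))) =
        (n : ℝ) ^ K * ((n : ℝ) ^ 2 - n * (K * (K - 1) / 2)) := by
      field_simp
    have hp : (0 : ℝ) ≤ (n : ℝ) ^ 2 := by positivity
    rw [← abs_of_nonneg hp, ← abs_mul, abs_le, mul_sub, e]
    have hD' : D K = (n.descFactorial K : ℝ) := rfl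
    rw [hD']
    have h5 : (0 : ℝ) ≤ (K : ℝ) ^ 4 * (n : ℝ) ^ K := by positivity
    constructor
    · nlinarith
    · nlinarith
  have key : ∀ (c m : ℕ), c ≤ K → (2 ≤ c → m + 1 = K) → (n : ℝ) ^ 2 *
      |(c.choose 2 : ℝ) * (D m - (n : ℝ) ^ K / n)| ≤ (K : ℝ) ^ 4 * (n : ℝ) ^ K / 4 := by
    intro c m hc hm
    have hc2 : (c.choose 2 : ℝ) ≤ (K : ℝ) ^ 2 / 2 := by
      rw [Nat.cast_choose_two]
      have h1 : (c : ℝ) ≤ K := by exact_mod_cast hc
      have h0 : (0 : ℝ) ≤ c := Nat.cast_nonneg c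
      nlinarith
    rcases Nat.lt_or_ge c 2 with h | h
    · rw [Nat.choose_eq_zero_of_lt h]
      simp only [Nat.cast_zero, zero_mul, abs_zero, mul_zero]
      positivity
    · have hm' := hm h
      have e : (n : ℝ) ^ K / n = (n : ℝ) ^ m := by
        rw [← hm', pow_succ]
        field_simp
      rw [e, abs_mul, abs_of_nonneg (Nat.cast_nonneg _), abs_sub_comm,
        abs_of_nonneg (sub_nonneg.2 (desc_le_pow n m))]
      have hl := low n m
      have h0 : (0 : ℝ) ≤ (n : ℝ) ^ m - n.descFactorial m := sub_nonneg.2 (desc_le_pow n m)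
      rw [hm'] at hl
      have hmK : (m : ℝ) ^ 2 ≤ (K : ℝ) ^ 2 := by
        have : (m : ℝ) ≤ K := by exact_mod_cast (by omega : m ≤ K)
        exact pow_le_pow_left₀ (Nat.cast_nonneg m) this 2
      have hnK : (0 : ℝ) ≤ (n : ℝ) ^ K := by positivity
      calc (n : ℝ) ^ 2 * ((c.choose 2 : ℝ) * ((n : ℝ) ^ m - n.descFactorial m))
          = (c.choose 2 : ℝ) * ((n : ℝ) ^ 2 * ((n : ℝ) ^ m - n.descFactorial m)) := by ring
        _ ≤ (K : ℝ) ^ 2 / 2 * ((n : ℝ) ^ K * ((m : ℝ) ^ 2 / 2)) := by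
            apply mul_le_mul hc2 hl (by positivity) (by positivity)
        _ ≤ (K : ℝ) ^ 2 / 2 * ((n : ℝ) ^ K * ((K : ℝ) ^ 2 / 2)) := by gcongr
        _ = _ := by ring
  have b3 := key k (k - 1 + j) (by omega) (by omega)
  have b4 := key j (k + (j - 1)) (by omega) (by omega)
  have hfin : (n : ℝ) ^ 2 * ((n : ℝ) ^ K * ‖Bm n k j x y - Vm n k j x y‖) ≤
      3 * (K : ℝ) ^ 4 * (n : ℝ) ^ K * (r ^ k * s ^ j) := by
    have e : (n : ℝ) ^ K * ‖Bm n k j x y - Vm n k j x y‖ =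
        ‖(n : ℂ) ^ K * (Bm n k j x y - Vm n k j x y)‖ := by
      rw [norm_mul, norm_pow, Complex.norm_natCast]
    rw [e, hd]
    have hrs : (0 : ℝ) ≤ r ^ k * s ^ j := by positivity
    have tri3 := (norm_add_le (F +
      ((D K - (n : ℝ) ^ K * (1 - (K : ℝ) * (K - 1) / (2 * n)) : ℝ) : ℂ) * (x ^ k * y ^ j) +
      (((k.choose 2 : ℝ) * (D (k - 1 + j) - (n : ℝ) ^ K / n) : ℝ) : ℂ) * (x ^ (k - 1) * y ^ j))
      ((((j.choose 2 : ℝ) * (D (k + (j - 1)) - (n : ℝ) ^ K / n) : ℝ) : ℂ) *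
        (x ^ k * y ^ (j - 1))))
    have tri2 := (norm_add_le (F +
      ((D K - (n : ℝ) ^ K * (1 - (K : ℝ) * (K - 1) / (2 * n)) : ℝ) : ℂ) * (x ^ k * y ^ j))
      ((((k.choose 2 : ℝ) * (D (k - 1 + j) - (n : ℝ) ^ K / n) : ℝ) : ℂ) *
        (x ^ (k - 1) * y ^ j)))
    have tri1 := (norm_add_le F
      (((D K - (n : ℝ) ^ K * (1 - (K : ℝ) * (K - 1) / (2 * n)) : ℝ) : ℂ) * (x ^ k * y ^ j)))
    rw [norm_mul _ (x ^ k * y ^ j), Complex.norm_real, Real.norm_eq_abs] at tri1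
    rw [norm_mul _ (x ^ (k - 1) * y ^ j), Complex.norm_real, Real.norm_eq_abs] at tri2
    rw [norm_mul _ (x ^ k * y ^ (j - 1)), Complex.norm_real, Real.norm_eq_abs] at tri3
    set A2 := |D K - (n : ℝ) ^ K * (1 - (K : ℝ) * (K - 1) / (2 * n))|
    set A3 := |(k.choose 2 : ℝ) * (D (k - 1 + j) - (n : ℝ) ^ K / n)|
    set A4 := |(j.choose 2 : ℝ) * (D (k + (j - 1)) - (n : ℝ) ^ K / n)|
    have hA2 : 0 ≤ A2 := abs_nonneg _
    have hA3 : 0 ≤ A3 := abs_nonneg _
    have hA4 : 0 ≤ A4 := abs_nonneg _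
    have c2 : (n : ℝ) ^ 2 * (A2 * ‖x ^ k * y ^ j‖) ≤ (K : ℝ) ^ 4 * (n : ℝ) ^ K * (r ^ k * s ^ j) := by
      rw [← mul_assoc]
      exact mul_le_mul b2 hxk (norm_nonneg _) (by positivity)
    have c3 : (n : ℝ) ^ 2 * (A3 * ‖x ^ (k - 1) * y ^ j‖) ≤
        (K : ℝ) ^ 4 * (n : ℝ) ^ K / 4 * (r ^ k * s ^ j) := by
      rw [← mul_assoc]
      exact mul_le_mul b3 hxk1 (norm_nonneg _) (by positivity)
    have c4 : (n : ℝ) ^ 2 * (A4 * ‖x ^ k * y ^ (j - 1)‖) ≤
        (K : ℝ) ^ 4 * (n : ℝ) ^ K / 4 * (r ^ k * s ^ j) := by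
      rw [← mul_assoc]
      exact mul_le_mul b4 hxk2 (norm_nonneg _) (by positivity)
    have hpos : (0 : ℝ) ≤ (K : ℝ) ^ 4 * (n : ℝ) ^ K * (r ^ k * s ^ j) := by positivity
    have tot := tri3.trans (add_le_add_left (tri2.trans (add_le_add_left tri1 _)) _)
    have tot2 := mul_le_mul_of_nonneg_left tot (by positivity : (0 : ℝ) ≤ (n : ℝ) ^ 2)
    refine tot2.trans ?_
    nlinarith [c2, c3, c4, hFb, hpos]
  have hnK : (0 : ℝ) < (n : ℝ) ^ K := by positivity
  rw [le_div_iff₀ (by positivity)]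
  have : (n : ℝ) ^ K * (‖Bm n k j x y - Vm n k j x y‖ * (n : ℝ) ^ 2) ≤
      (n : ℝ) ^ K * (3 * ((K : ℝ) ^ 4 * (r ^ k * s ^ j))) := by nlinarith [hfin]
  exact le_of_mul_le_mul_left this hnK

end Pool.Agent.Q248.BV
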