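import Pool.Agent.Q248.BV.Mono

/-!
# Double power series and their partial derivatives
-/

set_option autoImplicit false

namespace Pool.Agent.Q248.BV

open Finset

/-- `f` is the sum of a double power series in a polydisk -/
def Ser (R₁ R₂ : ℝ) (f : ℂ → ℂ → ℂ) (a : ℕ → ℕ → ℂ) : Prop :=
  ∀ x y : ℂ, ‖x‖ < R₁ → ‖y‖ < R₂ → HasSum (fun p : ℕ × ℕ => a p.1 p.2 * x ^ p.1 * y ^ p.2) (f x y)

theorem Ser.swap {R₁ R₂ : ℝ} {f : ℂ → ℂ → ℂ} {a : ℕ → ℕ → ℂ} (h : Ser R₁ R₂ f a) :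
    Ser R₂ R₁ (fun y x => f x y) (fun j k => a k j) := by
  intro y x hy hx
  have h1 := (Equiv.prodComm ℕ ℕ).hasSum_iff.2 (h x y hx hy)
  refine h1.congr_fun ?_ |> fun h => h
  intro p
  simp only [Function.comp, Equiv.prodComm_apply, Prod.swap]
  ring

theorem bern_ineq (r δ : ℝ) (hr : 0 ≤ r) (hδ : 0 ≤ δ) (k : ℕ) :
    r ^ (k + 1) + (k + 1) * r ^ k * δ ≤ (r + δ) ^ (k + 1) := by
  induction k with
  | zero => simp
  | succ k ih =>
    have h1 : 0 ≤ r + δ := by linarith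
    have h2 := mul_le_mul_of_nonneg_left ih h1
    have h3 : 0 ≤ (k + 1 : ℝ) * r ^ k * δ ^ 2 := by positivity
    have e : (r + δ) ^ (k + 1 + 1) = (r + δ) * (r + δ) ^ (k + 1) := by ring
    rw [e]
    refine le_trans ?_ h2
    push_cast
    have e2 : (r + δ) * (r ^ (k + 1) + (k + 1) * r ^ k * δ) =
        r ^ (k + 1 + 1) + (k + 1 + 1) * r ^ (k + 1) * δ + (k + 1 : ℝ) * r ^ k * δ ^ 2 := by ring
    rw [e2]
    linarith

theorem Ser.der {R₁ R₂ : ℝ} {f : ℂ → ℂ → ℂ} {a : ℕ → ℕ → ℂ} (h : Ser R₁ R₂ f a) (x y : ℂ)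
    (hx : ‖x‖ < R₁) (hy : ‖y‖ < R₂) :
    HasSum (fun p : ℕ × ℕ => a p.1 p.2 * ((p.1 : ℂ) * x ^ (p.1 - 1)) * y ^ p.2)
      (deriv (fun z => f z y) x) := by
  obtain ⟨r, hr1, hr2⟩ := exists_between hx
  obtain ⟨r', hr3, hr4⟩ := exists_between hr2
  have hr0 : 0 ≤ r := (norm_nonneg x).trans hr1.le
  have hr'0 : 0 ≤ r' := hr0.trans hr3.le
  have hs := (h (r' : ℂ) y (by rw [Complex.norm_real, Real.norm_eq_abs, abs_of_nonneg hr'0];
                               exact hr4) hy).summable.norm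
  have hδ : 0 < r' - r := by linarith
  set u : ℕ × ℕ → ℝ := fun p => ‖a p.1 p.2 * (r' : ℂ) ^ p.1 * y ^ p.2‖ * (1 / (r' - r)) with hu
  have hus : Summable u := hs.mul_right _
  have hb : ∀ (p : ℕ × ℕ) (z : ℂ), z ∈ Metric.ball (0 : ℂ) r →
      ‖a p.1 p.2 * ((p.1 : ℂ) * z ^ (p.1 - 1)) * y ^ p.2‖ ≤ u p := by
    rintro ⟨k, j⟩ z hz
    have hz' : ‖z‖ ≤ r := by
      rw [mem_ball_zero_iff] at hz
      exact hz.le
    simp only [hu]
    rw [norm_mul, norm_mul, norm_mul, norm_mul, norm_mul, norm_pow, norm_pow, norm_pow,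
      Complex.norm_natCast, Complex.norm_real, Real.norm_eq_abs, abs_of_nonneg hr'0]
    have hk : (k : ℝ) * ‖z‖ ^ (k - 1) ≤ r' ^ k * (1 / (r' - r)) := by
      rcases k with _ | k
      · simp only [Nat.cast_zero, zero_mul, pow_zero, one_mul]
        positivity
      · rw [Nat.add_sub_cancel]
        have h1 := bern_ineq r (r' - r) hr0 hδ.le k
        rw [add_sub_cancel] at h1
        have h2 : ‖z‖ ^ k ≤ r ^ k := pow_le_pow_left₀ (norm_nonneg _) hz' k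
        have h3 : ((k + 1 : ℕ) : ℝ) * ‖z‖ ^ k ≤ ((k + 1 : ℕ) : ℝ) * r ^ k := by gcongr
        refine h3.trans ?_
        rw [mul_one_div, le_div_iff₀ hδ]
        have h4 : 0 ≤ r ^ (k + 1) := by positivity
        push_cast
        linarith
    calc ‖a k j‖ * ((k : ℝ) * ‖z‖ ^ (k - 1)) * ‖y‖ ^ j
        ≤ ‖a k j‖ * (r' ^ k * (1 / (r' - r))) * ‖y‖ ^ j := by gcongr
      _ = _ := by ring
  have hd : ∀ (p : ℕ × ℕ) (z : ℂ), z ∈ Metric.ball (0 : ℂ) r →
      HasDerivAt (fun z => a p.1 p.2 * z ^ p.1 * y ^ p.2)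
        (a p.1 p.2 * ((p.1 : ℂ) * z ^ (p.1 - 1)) * y ^ p.2) z := by
    intro p z _
    exact ((hasDerivAt_pow p.1 z).const_mul _).mul_const _
  have hxm : x ∈ Metric.ball (0 : ℂ) r := by
    rw [mem_ball_zero_iff]
    exact hr1
  have key := hasDerivAt_tsum_of_isPreconnected hus Metric.isOpen_ball
    (convex_ball (0 : ℂ) r).isPreconnected hd hb hxm (h x y hx hy).summable hxm
  have hev : (fun z => f z y) =ᶠ[nhds x] (fun z => ∑' p : ℕ × ℕ, a p.1 p.2 * z ^ p.1 * y ^ p.2) := by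
    filter_upwards [Metric.isOpen_ball.mem_nhds hxm] with z hz
    rw [mem_ball_zero_iff] at hz
    exact ((h z y (hz.trans hr2) hy).tsum_eq).symm
  have key2 := key.congr_of_eventuallyEq hev
  rw [key2.deriv]
  exact (Summable.of_norm_bounded hus (fun p => hb p x hxm)).hasSum

theorem shift_hasSum (F : ℕ × ℕ → ℂ) (c : ℂ) (h0 : ∀ j, F (0, j) = 0) :
    HasSum (fun p : ℕ × ℕ => F (p.1 + 1, p.2)) c ↔ HasSum F c := by
  have hi : Function.Injective (fun p : ℕ × ℕ => (p.1 + 1, p.2)) := by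
    rintro ⟨a, b⟩ ⟨a', b'⟩ h
    simp only [Prod.mk.injEq] at h
    ext
    · simp; omega
    · simp; omega
  refine hi.hasSum_iff (f := F) ?_
  rintro ⟨k, j⟩ hk
  rcases k with _ | k
  · exact h0 j
  · exact absurd ⟨(k, j), rfl⟩ hk

theorem Ser.deriv₁ {R₁ R₂ : ℝ} {f : ℂ → ℂ → ℂ} {a : ℕ → ℕ → ℂ} (h : Ser R₁ R₂ f a) :
    Ser R₁ R₂ (fun x y => deriv (fun z => f z y) x)
      (fun k j => a (k + 1) j * ((k + 1 : ℕ) : ℂ)) := by
  intro x y hx hy
  have h1 := h.der x y hx hy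
  rw [← shift_hasSum] at h1
  · refine h1.congr_fun ?_ |> fun h => h
    intro p
    simp only [Nat.add_sub_cancel]
    push_cast
    ring
  · intro j
    simp

end Pool.Agent.Q248.BV
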